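import Pool.Agent.MP_ee8c61_ag.Q3RT.Top
import Pool.Agent.MP_ee8c61_ag.R3RB.Root
import Pool.Agent.MP_ee8c61_ag.H95.AChart
import Pool.Agent.MP_ee8c61_ag.R3B.Defs

/-! The complex manifold attached to a model over a chart of the blow-up; the multiplicity of a
root at a threshold. -/

namespace Pool.Agent.MP_ee8c61_ag.N3RB

open M3 N3Zt MvPolynomial Set Filter Topology
open Q3RT hiding ip_mem ev_ip fg proper le_of_off
open M3L (zm)
open Pool.Agent.MP_96693b_ag.RS (Loc LocOf exists_locOf exists_locOf_of_notMem)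

noncomputable section

variable {N : ℕ} {M : Mod N}

theorem ip_mem (h : OK0 M) (P : Pt M) (p : Po N) : ip N p ∈ P.1.O :=
  P.2.elim fun b hb => hb.le (h.pol b p)

theorem ev_ip (h : OK0 M) (P : Pt M) (p : Po N) : P.1.ev (ip N p) = eval (an P) p := by
  induction p using MvPolynomial.induction_on with
  | C c => exact (congrArg _ ((ip N).commutes c)).trans ((P.1.ev_alg c).trans (eval_C c).symm)
  | add p q hp hq => rw [map_add, map_add, P.1.ev_add _ (ip_mem h P p) _ (ip_mem h P q), hp, hq]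
  | mul_X p i hp =>
    rw [map_mul, map_mul, P.1.ev_mul _ (ip_mem h P p) _ (ip_mem h P _), hp, eval_X]
    rfl

theorem fg (h : OK0 M) (b : M.ι) : (M.S.A b).FG :=
  (exists_gn h b).elim fun G => Subalgebra.fg_def.2 ⟨_, finite_range _, G.adj⟩

theorem cont {g : KK N} (hg : ∀ b, g ∈ M.S.A b) : Continuous fun P : Pt M => P.1.ev g :=
  continuous_iff_continuousAt.2 fun l =>
    (tendsto_pt.1 tendsto_id _ (l.2.elim fun b hb => hb.le (hg b))).2

theorem proper (h : OK0 M) {y : Fin N → KK N} (hy : ∀ i b, y i ∈ M.S.A b)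
    (hc : ∀ V : Vl N, (∀ c, algebraMap ℂ (KK N) c ∈ V) → (∀ i, y i ∈ V) → ∃ b, M.In b V) :
    IsProperMap fun (P : Pt M) i => P.1.ev (y i) := by
  refine isProperMap_iff_ultrafilter_of_t2.2 ⟨continuous_pi fun i => cont (hy i),
    fun 𝒰 z hz => ?_⟩
  let l : Pt M → Loc (KK N) := fun a => a.1
  obtain ⟨b, -, hb⟩ := (Ultrafilter.eventually_exists_mem_iff (finite_univ (α := M.ι))
    (P := fun b (a : Pt M) => LocOf (M.S.A b) a.1) (f := 𝒰)).1
    (.of_forall fun a => a.2.imp fun _ e => ⟨trivial, e⟩)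
  have hb' : M.S.A b ≤ df (𝒰 : Filter _) l := fun g hg => hb.mono fun _ e => e.le hg
  obtain ⟨V, h1, h2⟩ := exists_val (F := (𝒰 : Filter _)) (l := l)
  obtain ⟨b', hV⟩ := hc V (fun c => h1 _ (Subalgebra.algebraMap_mem _ c)) fun i =>
    h1 _ (mem_dm.2 ⟨z i, .of_forall fun a => a.2.elim fun b hb => hb.le (hy i b),
      tendsto_pi_nhds.1 hz i⟩)
  let W : Subalgebra ℂ (KK N) :=
    { carrier := {x | ∃ s ∈ dm (𝒰 : Filter _) l, (∀ᶠ a in 𝒰, (l a).ev s ≠ 0) ∧ x * s ∈ V}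
      mul_mem' := fun {x y} ⟨s, s1, s2, s3⟩ ⟨t, t1, t2, t3⟩ => ⟨s * t, mul_mem s1 t1, by
        filter_upwards [s2, t2] with a k1 k2
        rw [(l a).ev_mul _ (Loc.mem_of_ev k1) _ (Loc.mem_of_ev k2)]
        exact mul_ne_zero k1 k2, by
        rw [mul_mul_mul_comm]
        exact mul_mem s3 t3⟩
      add_mem' := fun {x y} ⟨s, s1, s2, s3⟩ ⟨t, t1, t2, t3⟩ => ⟨s * t, mul_mem s1 t1, by
        filter_upwards [s2, t2] with a k1 k2
        rw [(l a).ev_mul _ (Loc.mem_of_ev k1) _ (Loc.mem_of_ev k2)]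
        exact mul_ne_zero k1 k2, by
        rw [show (x + y) * (s * t) = x * s * t + y * t * s by ring]
        exact add_mem (mul_mem s3 (h1 t t1)) (mul_mem t3 (h1 s s1))⟩
      algebraMap_mem' := fun c => ⟨1, one_mem _, .of_forall fun a => by simp [Loc.ev_one], by
        rw [mul_one]
        exact h1 _ (Subalgebra.algebraMap_mem _ c)⟩ }
  have one : ∀ x ∈ V, x ∈ W := fun x hx =>
    ⟨1, one_mem _, .of_forall fun a => by simp [Loc.ev_one], by rwa [mul_one]⟩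
  have hW : df (𝒰 : Filter _) l ≤ W := fun x hx => by
    rcases dicho hx with e | ⟨e, e'⟩
    · exact one x (h1 x e)
    · refine ⟨x⁻¹, mem_dm.2 ⟨_, e⟩, ?_, ?_⟩
      · filter_upwards [e', hx] with a k1 k2
        rw [Loc.ev_inv k2 k1]
        exact inv_ne_zero k1
      · rw [mul_inv_cancel₀ (Loc.ne_zero_of_ev e'.exists.choose_spec)]
        exact one_mem V
  have hd : M.S.A b' ≤ dm (𝒰 : Filter _) l := fun x hx => by
    obtain ⟨u, u1, u2, u3⟩ := M.S.loc b b' x hx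
    obtain ⟨s, s1, s2, s3⟩ := (sup_le (hb'.trans hW) (fun g hg => one g (hV g hg)) : _ ≤ W) u2
    have hs := Loc.ne_zero_of_ev s2.exists.choose_spec
    have hu : ∀ᶠ a in 𝒰, (l a).ev u ≠ 0 := by
      refine (𝒰.em fun a => (l a).ev u = 0).resolve_left fun e => ?_
      have k1 : s⁻¹ ∈ df (𝒰 : Filter _) l := df_inv (mem_dm.1 s1).choose_spec.1 s2
      have k2 : ((u : KK N) * s⁻¹, (0 : ℂ)) ∈ gl (𝒰 : Filter _) l :=
        ⟨mul_mem (hb' u1) k1, tendsto_const_nhds.congr' (by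
          filter_upwards [e, hb' u1, k1] with a k3 k4 k5
          rw [(l a).ev_mul _ k4 _ k5, k3, zero_mul])⟩
      refine h2 _ k2 ⟨mul_ne_zero u.ne_zero (inv_ne_zero hs), h1 _ (mem_dm.2 ⟨_, k2⟩), ?_⟩
      simpa [mul_comm] using s3
    have hx' : x ∈ df (𝒰 : Filter _) l := by
      simpa using mul_mem (df_inv (hb' u1) hu) (hb' u3)
    refine (dicho hx').resolve_right fun e => h2 _ e.1
      ⟨inv_ne_zero (Loc.ne_zero_of_ev e.2.exists.choose_spec), h1 _ (mem_dm.2 ⟨_, e.1⟩), ?_⟩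
    simpa using hV x hx
  obtain ⟨γ, hγ⟩ := exists_lim hd
  obtain ⟨P, hP, e⟩ := exists_locOf (fg h b') γ
  exact ⟨⟨P, b', hP⟩, tendsto_id'.1 (tendsto_pt.2
    (gl_of_chart hP fun g hg => (e ⟨g, hg⟩).symm ▸ hγ ⟨g, hg⟩))⟩

theorem le_of_off (h : OK0 M) {P P' : Pt M} (hP : ∀ j, ¬M.On P.1 j) (e : an P = an P') :
    P.1.O ≤ P'.1.O := by
  obtain ⟨b, hb⟩ := P.2
  obtain ⟨G⟩ := exists_gn h b
  let φ : (G.ch h).A →ₐ[ℂ] ℂ := evh hb
  have := RingHom.ker_isPrime φ.toRingHom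
  obtain ⟨r, hr, H⟩ := zm (G.ch h) (M.S.A b).val Subtype.val_injective (G.val_f h)
    (RingHom.ker φ.toRingHom) (by
      obtain ⟨v, hv, e'⟩ := G.det_eq h
      change evh hb _ ≠ 0
      rw [e', map_mul, map_prod]
      refine mul_ne_zero (Finset.prod_ne_zero_iff.2 fun j _ => ?_) (hv.map _).ne_zero
      rw [map_pow]
      exact pow_ne_zero _ fun e => hP j ((on_iff h hb j).2 e))
  have e1 : ∀ p, P'.1.ev (ip N p) = P.1.ev (ip N p) := fun p => by rw [ev_ip h, ev_ip h, e]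
  have k : ∀ x ∈ M.S.A b, x ∈ P'.1.O ∧ P'.1.ev x = P.1.ev x := fun x hx => by
    obtain ⟨n, p, e'⟩ := H ⟨x, hx⟩
    have e2 : ip N (r ^ n) * x = ip N p := by
      rw [← G.val_f h, ← G.val_f h, ← e', map_pow]
      rfl
    have e3 : P.1.ev (ip N (r ^ n)) ≠ 0 := by
      rw [map_pow, Loc.ev_pow (ip_mem h P r), ← G.val_f h]
      exact pow_ne_zero _ hr
    rw [eq_div_of_mul_eq (Loc.ne_zero_of_ev e3) ((mul_comm _ _).trans e2),
      Loc.ev_div (ip_mem h P' _) (ip_mem h P' _) ((e1 _).trans_ne e3),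
      Loc.ev_div (ip_mem h P _) (ip_mem h P _) e3, e1, e1]
    exact ⟨Loc.div_mem (ip_mem h P' _) (ip_mem h P' _) ((e1 _).trans_ne e3), rfl⟩
  exact hb.le_of_ev (fun x hx => (k x hx).1) fun x hx => (k x hx).2

theorem ev_chart (h : OK0 M) {b : M.ι} {y : Pt M} (hb : LocOf (M.S.A b) y.1) :
    ∀ᶠ l in 𝓝 y, LocOf (M.S.A b) l.1 := by
  obtain ⟨G⟩ := exists_gn h b
  have k := tendsto_pt.1 (tendsto_id (x := 𝓝 y))
  filter_upwards [eventually_all.2 fun i => (k _ (hb.le (G.y i).2)).1] with l hl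
  obtain ⟨a, ha⟩ := l.2
  refine locOf_of_le ha ?_
  rw [← G.adj]
  exact Algebra.adjoin_le (range_subset_iff.2 hl)

variable {r : ℕ} {F : Fin r → Po N} {j₀ : Fin r}

theorem rt_ne (h0 : F j₀ ≠ 0) (P : Pt M) : (fun i => P.1.ev (ip N (F i) / ip N (F j₀))) ≠ 0 :=
  fun e => by
    have := congrFun e j₀
    rw [div_self (M3B1.ip_ne h0), Loc.ev_one] at this
    exact one_ne_zero this

/-- The map to projective space. -/
def bt (h0 : F j₀ ≠ 0) (P : Pt M) : Projectivization ℂ (Fin r → ℂ) := .mk ℂ _ (rt_ne h0 P)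

theorem isLoc [NeZero N] (h : OK0 M) (hF : F j₀ ≠ 0) (pos : ∀ j, 0 < M.a j)
    (ord : ∀ b, ∃ U : (KK N)ˣ, M.S.IsU b U ∧ ip N (F j₀) = U * M.mon b M.aa)
    (mem : ∀ b i, ip N (F i) / ip N (F j₀) ∈ M.S.A b) :
    IsLoc F (an (M := M)) (bt hF) (fun j => {P | M.On P.1 j}) M.a M.k := by
  classical
  refine ⟨fun l hl l' hl' e => ?_, pos, fun y => ?_⟩
  · simp only [mem_compl_iff, mem_iUnion, not_exists] at hl hl'
    exact Subtype.ext (Loc.ext' (le_antisymm (le_of_off h hl e) (le_of_off h hl' e.symm)))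
  obtain ⟨b, hL⟩ := y.2
  let z : Fin N → M.S.A b := fun l => ⟨M.S.z b l, M.S.z_mem b l⟩
  let x : Fin N → M.S.A b := fun i => ⟨ip N (X i), h.pol b _⟩
  obtain ⟨Ψ, h0, h1, h2⟩ := H95.chart_at (z := z) (h.et b) (evh hL)
  choose pt i1 i2 using fun τ => exists_locOf (fg h b) (Ψ τ)
  let ψ : (Fin N → ℂ) → Pt M := fun τ => ⟨pt τ, b, i1 τ⟩
  have i3 : ∀ τ (l : Pt M) (hl : LocOf (M.S.A b) l.1), Ψ τ = evh hl → ψ τ = l := fun τ l hl e =>
    pt_ext (i1 τ) hl fun s hs => (i2 τ ⟨s, hs⟩).trans (by rw [e]; rfl)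
  have i4 : ∀ s : M.S.A b, y.1.ev s = Ψ 0 s := fun s => by rw [h0]; rfl
  have i5 : an ∘ ψ = fun τ i => Ψ τ (x i) := funext fun τ => funext fun i => i2 τ (x i)
  have a0 := h1.self_of_nhds.2
  let I : Finset M.J := Finset.univ.filter (M.On y.1)
  let e : M.J → Fin N := fun j => (M.S.lab b j).getD 0
  have z0 : ∀ j, j ∈ I ↔ Ψ 0 (et b j) = 0 := fun j => by
    rw [← i4]
    exact (Finset.mem_filter_univ j).trans (on_iff h hL j)
  have he : ∀ j ∈ I, M.S.lab b j = some (e j) := fun j hj => by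
    cases c : M.S.lab b j with
    | none =>
      have := (z0 j).1 hj
      rw [show et b j = 1 from Subtype.ext (by simp [et, Mod.η, M.S.η_none b j c]), map_one] at this
      exact absurd this one_ne_zero
    | some l => simp [e, c]
  have ez : ∀ j ∈ I, et b j = z (e j) := fun j hj => Subtype.ext (M.S.η_some b j _ (he j hj))
  have z1 : ∀ᶠ τ in 𝓝 0, ∀ j ∈ Iᶜ, Ψ τ (et b j) ≠ 0 :=
    (eventually_all_finset _).2 fun j hj => (a0 _).continuousAt.eventually_ne fun c =>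
      Finset.mem_compl.1 hj ((z0 j).2 c)
  let m : (M.J → ℕ) → M.S.A b := fun c => ∏ i ∈ Iᶜ, et b i ^ c i
  have m1 : ∀ᶠ τ in 𝓝 0, ∀ c, Ψ τ (m c) ≠ 0 := z1.mono fun τ e c => by
    simpa only [m, map_prod, map_pow] using
      Finset.prod_ne_zero_iff.2 fun i hi => pow_ne_zero _ (e i hi)
  obtain ⟨U, hU, eU⟩ := ord b
  obtain ⟨W, hW, eW⟩ := h.det b
  let u : M.S.A b := ⟨U, hU.1⟩
  let v : M.S.A b := ⟨W, hW.1⟩
  have uu : IsUnit u := IsUnit.of_mul_eq_one ⟨_, hU.2⟩ (Subtype.ext U.mul_inv)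
  have uv : IsUnit v := IsUnit.of_mul_eq_one ⟨_, hW.2⟩ (Subtype.ext W.mul_inv)
  let D : Fin N → M.S.A b → M.S.A b := fun l a => ⟨M.S.D b l a, M.S.D_mem b l a a.2⟩
  have jac : (Matrix.of fun i l => D l (x i)).det = (∏ j, et b j ^ M.k j) * v := by
    refine Subtype.ext ?_
    rw [MulMemClass.coe_mul, ← mon_nat, mul_comm]
    refine .trans ?_ eW
    refine ((M.S.A b).val.map_det _).trans (congrArg Matrix.det (Matrix.ext fun i l => ?_))
    change M.S.D b l (ip N (X i)) = M.S.D b l (M.S.r i)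
    rw [h.r]
  let q : Fin r → M.S.A b := fun i => ⟨_, mem b i⟩
  have fac : ∀ i, (⟨ip N (F i), h.pol b _⟩ : M.S.A b) = (∏ j, et b j ^ M.a j) * (u * q i) :=
    fun i => Subtype.ext (by
      rw [MulMemClass.coe_mul, ← mon_nat]
      change ip N (F i) = M.mon b M.aa * (U * (ip N (F i) / ip N (F j₀)))
      rw [← mul_assoc, mul_comm _ (U : KK N), ← eU, mul_div_cancel₀ _ (M3B1.ip_ne hF)])
  refine ⟨ψ, I, e, fun τ i => Ψ τ (m M.a * (u * q i)), fun τ => Ψ τ (m M.k * v), i3 0 y hL h0,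
    le_antisymm ?_ fun S hS => ?_, ⟨_, h1, 1, fun l => encard_le_one_iff.2 ?_⟩,
    fun j hj j' hj' c => M.S.lab_inj b j j' _ (he j hj) (c ▸ he j' hj'),
    i5 ▸ analyticAt_pi_iff.2 fun i => a0 _, analyticAt_pi_iff.2 fun j => a0 _, a0 _, ?_, ?_⟩
  · refine tendsto_pt.2 (gl_of_chart hL fun s hs => ⟨.of_forall fun τ => (i1 τ).le hs, ?_⟩)
    have := (a0 ⟨s, hs⟩).continuousAt.tendsto
    rw [← i4] at this
    simp only [← i2] at this
    exact this
  · have k1 := ev_chart h hL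
    have k2 := tendsto_pt.1 (tendsto_id (x := 𝓝 y))
    let p : Pt M → M.S.A b →ₐ[ℂ] ℂ := fun l =>
      if hl : LocOf (M.S.A b) l.1 then evh hl else evh hL
    have k3 : ∀ s, Tendsto (p · s) (𝓝 y) (𝓝 (evh hL s)) := fun s =>
      (k2 s (hL.le s.2)).2.congr' (k1.mono fun l hl => by
        simp only [p, dif_pos hl]
        rfl)
    filter_upwards [k1, h2 _ p k3, (tendsto_pi_nhds.2 fun i => by
      simpa using (k3 (z i)).sub_const (evh hL (z i))).eventually hS] with l hl e1 e2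
    exact i3 _ l hl (e1.trans (dif_pos hl)) ▸ e2
  · rintro τ τ' ⟨k1, k2⟩ ⟨k3, k4⟩
    funext i
    have c := k1.1 i
    rw [← i2, show pt τ = pt τ' from congrArg Subtype.val (k2.trans k4.symm), i2, k3.1 i] at c
    exact (add_left_cancel c).symm
  · exact (map_mul _ _ _).trans_ne (mul_ne_zero (m1.self_of_nhds _) (uv.map _).ne_zero)
  filter_upwards [h1.eventually_nhds, z1, m1] with τ k0 k3 k4
  obtain ⟨k1, k2⟩ := k0.self_of_nhds
  have k5 : ∀ j ∈ I, Ψ τ (et b j) = τ (e j) := fun j hj => by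
    rw [ez j hj, k1, ← h0, ← ez j hj, (z0 j).1 hj, zero_add]
  have k6 : ∀ (c : M.J → ℕ) u, Ψ τ ((∏ i, et b i ^ c i) * u) =
      (∏ i ∈ I, τ (e i) ^ c i) * Ψ τ (m c * u) := fun c u => by
    rw [← Finset.prod_mul_prod_compl I, mul_assoc, map_mul, map_prod]
    exact congrArg (· * _) (Finset.prod_congr rfl fun j hj => by rw [map_pow, k5 j hj])
  have k7 : Ψ τ (m M.a * u) ≠ 0 := (map_mul _ _ _).trans_ne (mul_ne_zero (k4 _) (uu.map _).ne_zero)
  refine ⟨fun j => ((on_iff h (i1 τ) j).trans (Eq.congr_left (i2 τ (et b j)))).trans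
    ⟨fun c => ?_, fun c => (k5 j c.1).trans c.2⟩, ?_, fun j => ?_, ?_⟩
  · have := by_contra fun n : j ∉ I => k3 j (Finset.mem_compl.2 n) c
    exact ⟨this, (k5 j this).symm.trans c⟩
  · rw [← k6, ← jac, AlgHom.map_det, ContinuousLinearMap.det, ← LinearMap.det_toMatrix', i5,
      fderiv_pi fun i => (k2 _).differentiableAt]
    refine congrArg Matrix.det (Matrix.ext fun i l => sub_eq_zero.1 ?_)
    obtain ⟨d1, d2, d3⟩ := H95.der_fam k2 (Pi.single l 1)
    have D1 : ∀ s t, D l (s + t) = D l s + D l t := fun s t =>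
      Subtype.ext (map_add (M.S.D b l) s.1 t.1)
    have D2 : ∀ s t, D l (s * t) = s * D l t + t * D l s := fun s t =>
      Subtype.ext ((M.S.D b l).leibniz s.1 t.1)
    have D3 : ∀ c, D l (algebraMap ℂ _ c) = 0 := fun c =>
      Subtype.ext ((M.S.D b l).map_algebraMap c)
    have D4 : ∀ i, D l (z i) = if l = i then 1 else 0 := fun i => Subtype.ext (by
      change M.S.D b l (M.S.z b i) = _
      rw [M.S.D_z]
      split_ifs <;> rfl)
    simpa using H95.unr (z := z) (h.et b) (Ψ τ)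
      (fun s => fderiv ℂ (Ψ · s) τ (Pi.single l 1) - Ψ τ (D l s))
      (fun a b => by rw [d1, D1, map_add]; ring)
      (fun a b => by rw [d2, D2, map_add, map_mul, map_mul]; ring)
      (fun c => by rw [d3, D3, map_zero, sub_zero])
      (fun i => by
        rw [EventuallyEq.fderiv_eq (k0.mono fun t e => e.1 i), fderiv_const_add,
          (hasFDerivAt_apply i τ).fderiv, D4]
        simp [Pi.single_apply, eq_comm]) (x i)
  · rw [← k6, ← fac, ← i2, ← ev_ip h]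
  · have k8 : ∀ i, Ψ τ (m M.a * (u * q i)) =
        Ψ τ (m M.a * u) * (ψ τ).1.ev (ip N (F i) / ip N (F j₀)) := fun i => by
      rw [← mul_assoc, map_mul, ← i2 τ (q i)]
    refine ⟨fun c => rt_ne hF (ψ τ) (_root_.funext fun i => ?_),
      ((Projectivization.mk_eq_mk_iff' _ _ _ _ _).2
        ⟨Ψ τ (m M.a * u), _root_.funext fun i => ?_⟩).symm⟩
    · exact (mul_eq_zero.1 ((k8 i).symm.trans (congrFun c i))).resolve_left k7
    · exact (k8 i).symm


theorem ev_eq {P P' : Loc (KK N)} {s : Set (KK N)}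
    (h : ∀ g ∈ s, g ∈ P.O ∧ g ∈ P'.O ∧ P.ev g = P'.ev g) {g : KK N}
    (hg : g ∈ Algebra.adjoin ℂ s) : g ∈ P.O ∧ g ∈ P'.O ∧ P.ev g = P'.ev g := by
  induction hg using Algebra.adjoin_induction with
  | mem x hx => exact h x hx
  | algebraMap c =>
    exact ⟨P.O.algebraMap_mem c, P'.O.algebraMap_mem c, (P.ev_alg c).trans (P'.ev_alg c).symm⟩
  | add x y _ _ hx hy =>
    exact ⟨add_mem hx.1 hy.1, add_mem hx.2.1 hy.2.1, by
      rw [P.ev_add _ hx.1 _ hy.1, P'.ev_add _ hx.2.1 _ hy.2.1, hx.2.2, hy.2.2]⟩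
  | mul x y _ _ hx hy =>
    exact ⟨mul_mem hx.1 hy.1, mul_mem hx.2.1 hy.2.1, by
      rw [P.ev_mul _ hx.1 _ hy.1, P'.ev_mul _ hx.2.1 _ hy.2.1, hx.2.2, hy.2.2]⟩

theorem srtI : N3.Q3B.SRTI := by
  intro r F b j u B hb hj hu u0 hO M h la I V g hV hI hg hneg
  have h0 := N3.M3L.ok0 h
  have hA : ∀ c, M3L.aw (N3.A0 F j) u ≤ M.S.A c := fun c g hg =>
    h.pol c ⟨g, N3.mem_Rb.2 fun V hV => (hO.2 V).1 hV g hg⟩
  have pr := proper (M := M.old) h0 (y := N3.xx 3) (fun i c => h.xx_mem c i)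
    fun V h1 h2 => h.cov V (N3.ov_iff.2 ⟨h1, h2⟩)
  have : WeaklyLocallyCompactSpace (Pt M.old) := ⟨fun y => ⟨_, pr.isCompact_preimage
    (isCompact_closedBall _ 1), pr.continuous.continuousAt (Metric.closedBall_mem_nhds _ one_pos)⟩⟩
  obtain ⟨c, hc⟩ := h.cov V hV
  let q : Ideal (M.S.A c) :=
    { carrier := {a | V.valuation (a : KK 3) < 1}
      zero_mem' := by simp
      add_mem' := fun {s t} ha hb => V.valuation.map_add_lt (x := s) (y := t) ha hb
      smul_mem' := fun s a ha => by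
        change V.valuation ((s : KK 3) * a) < 1
        rw [map_mul]
        exact (mul_le_of_le_one_left' ((V.valuation_le_one_iff _).2 (hc _ s.2))).trans_lt ha }
  obtain ⟨P, hP, h1, h2⟩ := exists_locOf_of_notMem (fg h0 c) (I := q) (r := ⟨ip 3 g, h.pol0 c g⟩)
    fun ⟨n, hn⟩ => by
      change V.valuation (ip 3 g ^ n) < 1 at hn
      rw [map_pow, un_iff.1 hg, one_pow] at hn
      exact lt_irrefl _ hn
  let x : Pt M.old := ⟨P, c, hP⟩
  have inO : ∀ (y : Pt M.old) g, g ∈ M3L.aw (N3.A0 F j) u → g ∈ y.1.O := fun y g hg =>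
    y.2.elim fun a ha => ha.le (hA a hg)
  have := root_dvd F b hb _ _ _ _ _ (isLoc (M := M.old) h0 hj h.pos h.ord
      fun a i => hA a (M3L.le_aw (N3.rat_mem i)))
    (continuous_pi fun i => cont fun a => h0.pol a _) x
    (pr.isCompact_preimage (isCompact_singleton (x := fun i => x.1.ev (N3.xx 3 i))))
    (fun y hy => ?_) la I (fun i hi => ⟨?_, ?_⟩) fun j ⟨y, hy, hy'⟩ => ?_
  · rw [map_neg, sub_neg_eq_add, Complex.ofReal_ratCast] at this
    exact this
  · have e1 : ∀ g ∈ N3.A0 F j, y.1.ev g = x.1.ev g := fun g hg => (ev_eq (P := y.1) (P' := x.1) (by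
      rintro _ ⟨i, rfl⟩
      have hm : Fin.append (N3.x0 3) (fun i => ip 3 (F i) / ip 3 (F j)) i ∈
          M3L.aw (N3.A0 F j) u := M3L.le_aw (Algebra.subset_adjoin ⟨i, rfl⟩)
      refine ⟨inO y _ hm, inO x _ hm, ?_⟩
      refine Fin.addCases (fun l => ?_) (fun l => ?_) i
      · rw [Fin.append_left]
        exact congrFun hy.1 l
      · rw [Fin.append_right]
        obtain ⟨a, ha⟩ := (Projectivization.mk_eq_mk_iff' _ _ _ _ _).1 hy.2
        have e2 := congrFun ha j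
        have e3 := congrFun ha l
        simp only [Pi.smul_apply, smul_eq_mul, div_self (M3B1.ip_ne hj), Loc.ev_one, mul_one]
          at e2 e3
        rw [← e3, e2, one_mul]) hg).2.2
    have e2 : ∀ z : Pt M.old, z.1.ev u * z.1.ev u⁻¹ = 1 := fun z => by
      rw [← z.1.ev_mul _ (inO z _ (M3L.le_aw hu)) _ (inO z _ M3L.inv_mem_aw), mul_inv_cancel₀ u0,
        Loc.ev_one]
    funext l
    obtain ⟨n, hn⟩ := (M3L.mem_aw hu u0).1 (hO.1 l)
    have e3 : ∀ z : Pt M.old, z.1.ev (u ^ n * N3.xx 3 l) = z.1.ev u ^ n * z.1.ev (N3.xx 3 l) :=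
      fun z => by
        rw [z.1.ev_mul _ (pow_mem (inO z _ (M3L.le_aw hu)) n) _ (inO z _ (hO.1 l)),
          Loc.ev_pow (inO z _ (M3L.le_aw hu))]
    have e4 := e1 _ hn
    rw [e3, e3, e1 u hu] at e4
    exact mul_left_cancel₀ (pow_ne_zero n (left_ne_zero_of_mul_eq_one (e2 x))) e4
  · exact (on_iff h0 hP i).2 (h1 (et (M := M.old) c i)
      ((not_un_iff (hc _ (eta_mem (M := M.old) c i))).1 ((hI i hi).2 c hc)))
  · exact_mod_cast sub_eq_zero.1 (hI i hi).1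
  · have h3 : y.1.ev (ip 3 g) ≠ 0 := by
      rw [ev_ip h0, (connectedComponentIn_subset _ _ hy').1, ← ev_ip h0]
      exact h2
    have h4 : ¬M.ex la j < 0 := fun hn => by
      have h5 := (hneg j hn).resolve_left hg.1
      have h6 := (hy _ (y.1.inv_mem _ (ip_mem h0 y g) h3)).resolve_left (inv_ne_zero hg.1)
      change 0 ≤ (M.v j).v _ at h6
      rw [(M.v j).inv] at h6
      omega
    exact_mod_cast sub_nonneg.1 (not_lt.1 h4)

end

end Pool.Agent.MP_ee8c61_ag.N3RB
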